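import Mathlib
import Pool.Agent.helper60.ECD.Exist

/-!
# Markström's conjecture: the line graph of a 2-connected cubic graph has an even circuit
decomposition
-/

namespace Pool.Agent.Results.MP_3c630e_co.Markstrom

open Pool.Agent.helper60.ECD Finset

universe u v

lemma crossing {V : Type u} {r : V → V → Prop} {A : Finset V} {x y : V}
    (h : Relation.ReflTransGen r x y) (hx : x ∈ A) (hy : y ∉ A) :
    ∃ p q, r p q ∧ p ∈ A ∧ q ∉ A := by
  induction h with
  | refl => exact absurd hx hy
  | @tail b c _ hbc ih =>
    by_cases hb : b ∈ A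
    · exact ⟨b, c, hbc, hb, hy⟩
    · exact ih hb

/-- **Markström's conjecture.** The line graph of every (finite, loopless, parallel edges allowed)
2-connected cubic graph has an even circuit decomposition. -/
theorem result {V : Type u} {E : Type v} [Finite V] [Finite E] (G : MGraph V E)
    (hloop : G.Loopless) (hcubic : G.Cubic) (hconn : G.TwoConnected) :
    G.lineGraph.HasEvenCircuitDecomposition := by
  classical
  have := Fintype.ofFinite V
  have := Fintype.ofFinite E
  have hp : ∀ e, ∃ p : V × V, G.ends e = s(p.1, p.2) := by
    intro e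
    induction G.ends e using Sym2.ind with
    | _ x y => exact ⟨(x, y), rfl⟩
  choose p hp using hp
  set a : E → V := fun e => (p e).1 with ha
  set b : E → V := fun e => (p e).2 with hb
  have hab : ∀ e, G.ends e = s(a e, b e) := hp
  have hne : ∀ e, a e ≠ b e := by
    intro e h
    apply hloop e
    rw [hab e, Sym2.mk_isDiag_iff]
    exact h
  have hmem : ∀ x e, x ∈ G.ends e ↔ (a e = x ∨ b e = x) := by
    intro x e
    rw [hab e, Sym2.mem_iff]
    constructor
    · rintro (h | h)
      · exact Or.inl h.symm
      · exact Or.inr h.symm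
    · rintro (h | h)
      · exact Or.inl h.symm
      · exact Or.inr h.symm
  have hdeg : ∀ x, (starS a b x).card = 3 := by
    intro x
    rw [← hcubic x, ← Set.ncard_coe_finset]
    congr 1
    ext e
    simp only [starS, Finset.coe_filter, Finset.mem_univ, true_and]
    exact (hmem x e).symm
  have hcut : ∀ A : Finset V, A.Nonempty → Aᶜ.Nonempty → 2 ≤ cut a b A := by
    rintro A ⟨x, hx⟩ ⟨y, hy⟩
    rw [Finset.mem_compl] at hy
    obtain ⟨u, w, ⟨_, _, e, hue, hwe⟩, huA, hwA⟩ :=
      crossing (hconn.1.2 x (Set.mem_univ _) y (Set.mem_univ _)) hx hy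
    have huw : u ≠ w := fun h => hwA (h ▸ huA)
    have hends : ∀ z, z ∈ A → z ∈ G.ends e → z = u := by
      intro z hz hze
      rw [hmem] at hue hwe hze
      by_contra hzu
      have hzw : z ≠ w := fun h => hwA (h ▸ hz)
      rcases hue with h1 | h1 <;> rcases hwe with h2 | h2 <;> rcases hze with h3 | h3
      · exact huw (h1.symm.trans h2)
      · exact huw (h1.symm.trans h2)
      · exact hzu (h3.symm.trans h1)
      · exact hzw (h3.symm.trans h2)
      · exact hzw (h3.symm.trans h2)
      · exact hzu (h3.symm.trans h1)
      · exact huw (h1.symm.trans h2)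
      · exact huw (h1.symm.trans h2)
    have hecut : ∀ f u w, u ∈ G.ends f → w ∈ G.ends f → u ∈ A → w ∉ A → f ∈ cutS a b A := by
      intro f u w hu hw huA hwA
      rw [mem_cutS]
      rw [hmem] at hu hw
      rcases hu with h1 | h1 <;> rcases hw with h2 | h2
      · exact absurd (h1.symm.trans h2 ▸ huA) hwA
      · rw [h1, h2]; tauto
      · rw [h1, h2]; tauto
      · exact absurd (h1.symm.trans h2 ▸ huA) hwA
    have he := hecut e u w hue hwe huA hwA
    by_contra hlt
    have hone : cutS a b A = {e} := by
      apply Finset.eq_singleton_iff_unique_mem.mpr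
      refine ⟨he, fun f hf => ?_⟩
      by_contra hfe
      apply hlt
      have : ({f, e} : Finset E) ⊆ cutS a b A := by
        intro g hg
        simp only [Finset.mem_insert, Finset.mem_singleton] at hg
        rcases hg with rfl | rfl
        · exact hf
        · exact he
      have h3 := Finset.card_le_card this
      rwa [Finset.card_pair hfe] at h3
    -- some vertex of `A` other than `u`
    have hz : ∃ z ∈ A, z ≠ u := by
      by_contra hno
      push Not at hno
      have hsub : starS a b u ⊆ cutS a b A := by
        intro f hf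
        rw [mem_starS] at hf
        rw [mem_cutS]
        have hfne := hne f
        intro hiff
        rcases hf with h1 | h1
        · have h2 : a f ∈ A := by rw [h1]; exact huA
          exact hfne (h1.trans (hno _ (hiff.mp h2)).symm)
        · have h2 : b f ∈ A := by rw [h1]; exact huA
          exact hfne ((hno _ (hiff.mpr h2)).trans h1.symm)
      have h3 := Finset.card_le_card hsub
      rw [hdeg, hone, Finset.card_singleton] at h3
      omega
    obtain ⟨z, hzA, hzu⟩ := hz
    obtain ⟨u', w', ⟨hu', _, f, hfu, hfw⟩, huA', hwA'⟩ :=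
      crossing ((hconn.2 u).2 z hzu w (Ne.symm huw)) hzA hwA
    have hf := hecut f u' w' hfu hfw huA' hwA'
    rw [hone, Finset.mem_singleton] at hf
    subst hf
    exact hu' (hends u' huA' hfu)
  obtain ⟨x0, _⟩ := hconn.1.1
  have hE : Nonempty E := by
    have h3 : (starS a b x0).Nonempty := by
      rw [← Finset.card_pos, hdeg]; omega
    exact ⟨h3.choose⟩
  obtain ⟨e0⟩ := hE
  obtain ⟨l, hl, _⟩ := exists_good a b hne hdeg hcut e0
  exact ecd_of_good G a b hab hne hdeg l hl

end Pool.Agent.Results.MP_3c630e_co.Markstrom
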